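import Pool.Agent.Helper16.QP2.Proj

/-!
# QP2: the curve in homogeneous coordinates
-/

set_option autoImplicit false

namespace Pool.Agent.QP2

open Pool.Agent.SL Matrix NumberField Pool.Agent.Helper64.Vojta MvPolynomial

universe u

/-- homogenization -/
theorem exists_hom {k : Type u} [Field k] (P : MvPolynomial (Fin 2) k) (hP : P ≠ 0) :
    ∃ Q : MvPolynomial (Fin 3) k, Q ≠ 0 ∧ (∃ d, Q.IsHomogeneous d) ∧
      ∀ {A : Type u} [CommRing A] [Algebra k A] (y : Fin 2 → A), aeval (Fin.cons 1 y : Fin 3 → A) Q = aeval y P := by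
  have key : ∀ {A : Type u} [CommRing A] [Algebra k A] (y : Fin 2 → A),
      aeval (Fin.cons 1 y : Fin 3 → A) (∑ i ∈ Finset.range (P.totalDegree + 1),
        X 0 ^ (P.totalDegree - i) * rename Fin.succ (homogeneousComponent i P)) = aeval y P := by
    intro A _ _ y
    rw [map_sum]
    conv_rhs => rw [← sum_homogeneousComponent P, map_sum]
    refine Finset.sum_congr rfl fun i _ => ?_
    rw [map_mul, map_pow, aeval_X, aeval_rename]
    have : (Fin.cons 1 y : Fin 3 → A) 0 = 1 := rfl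
    rw [this, one_pow, one_mul]
    rfl
  refine ⟨_, ?_, ⟨P.totalDegree, ?_⟩, key⟩
  · intro h0
    apply hP
    have h1 := key (A := MvPolynomial (Fin 2) k) X
    rw [h0, map_zero, aeval_X_left_apply] at h1
    exact h1.symm
  · refine IsHomogeneous.sum _ _ _ fun i hi => ?_
    have h1 : P.totalDegree = (P.totalDegree - i) + i := by
      have := Finset.mem_range.1 hi
      omega
    conv_rhs => rw [h1]
    refine IsHomogeneous.mul ?_ ?_
    · exact isHomogeneous_X_pow 0 _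
    · exact (homogeneousComponent_isHomogeneous i P).rename_isHomogeneous

theorem genPos_swap {k : Type u} [Field k] {q : ℕ} (j : Fin 3) (ℓ : Fin q → Fin 3 → k)
    (hℓ : ∀ a b c : Fin q, a ≠ b → a ≠ c → b ≠ c → LinearIndependent k ![ℓ a, ℓ b, ℓ c]) :
    SL.GenPos fun i => ℓ i ∘ Equiv.swap 0 j := by
  intro f hf
  have h := br_ne (hℓ (f 0) (f 1) (f 2) (fun h => by simpa using hf h) (fun h => by simpa using hf h)
    (fun h => by simpa using hf h))
  have h1 : (Matrix.of fun a b => (ℓ (f a) ∘ Equiv.swap 0 j) b).det =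
      br (ℓ (f 0) ∘ Equiv.swap 0 j) (ℓ (f 1) ∘ Equiv.swap 0 j) (ℓ (f 2) ∘ Equiv.swap 0 j) := by
    rw [br_det]
    congr 1
    ext a b
    fin_cases a <;> rfl
  rw [h1, br_swap]
  refine mul_ne_zero ?_ h
  split
  · exact one_ne_zero
  · exact neg_ne_zero.2 one_ne_zero

theorem inv_swap {k : Type u} [Field k] {q : ℕ} (j : Fin 3) (ℓ : Fin q → Fin 3 → k)
    (h : SL.Inv fun i => ℓ i ∘ Equiv.swap 0 j) : SL.Inv ℓ := by
  obtain ⟨M, π, hM, hπ⟩ := h
  refine ⟨M.submatrix (Equiv.swap 0 j) (Equiv.swap 0 j), π, ?_, fun i => ⟨(hπ i).1, (hπ i).2.1, ?_⟩⟩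
  · rw [Matrix.submatrix_mul_equiv, hM, Matrix.submatrix_one_equiv]
  · obtain ⟨c, hc⟩ := (hπ i).2.2
    refine ⟨c, ?_⟩
    rw [Matrix.submatrix_mulVec_equiv]
    have h1 : (Equiv.swap 0 j).symm = Equiv.swap 0 j := Equiv.symm_swap 0 j
    rw [h1, hc]
    funext a
    simp

theorem projC {k : Type u} [Field k] [NumberField k] (S : Finset (Pl k)) {q : ℕ} (hq : 6 ≤ q) (ℓ : Fin q → Fin 3 → k)
    (hℓ : ∀ a b c : Fin q, a ≠ b → a ≠ c → b ≠ c → LinearIndependent k ![ℓ a, ℓ b, ℓ c])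
    (hinv : q = 6 → ¬ SL.Inv ℓ) (C : ℝ) :
    ∃ P : MvPolynomial (Fin 3) k, P ≠ 0 ∧ (∃ d, P.IsHomogeneous d) ∧ ∀ x : Fin 3 → AlgebraicClosure k, (∃ j, x j = 1) →
      Chart.dg x ≤ 2 → (∀ i, Chart.val (ℓ i) x ≠ 0) → q * Chart.hgt x - C ≤ ∑ ν ∈ S, ∑ i, Chart.lam (ℓ i) ν x →
      aeval x P = 0 := by
  have h1 : ∀ j : Fin 3, ∃ P : MvPolynomial (Fin 3) k, P ≠ 0 ∧ (∃ d, P.IsHomogeneous d) ∧
      ∀ x : Fin 3 → AlgebraicClosure k, x j = 1 →
      Chart.dg x ≤ 2 → (∀ i, Chart.val (ℓ i) x ≠ 0) → q * Chart.hgt x - C ≤ ∑ ν ∈ S, ∑ i, Chart.lam (ℓ i) ν x →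
      aeval x P = 0 := by
    intro j
    obtain ⟨P, hP0, hP⟩ := SL.main S hq (fun i => ℓ i ∘ Equiv.swap 0 j) (genPos_swap j ℓ hℓ)
      (fun h h' => hinv h (inv_swap j ℓ h')) C
    obtain ⟨Q, hQ0, ⟨d, hQd⟩, hQ⟩ := exists_hom P hP0
    refine ⟨rename (Equiv.swap 0 j) Q, ?_, ⟨d, hQd.rename_isHomogeneous⟩, fun x hx hd hD hN => ?_⟩
    · intro h0
      apply hQ0
      rw [← map_zero (rename (Equiv.swap 0 j))] at h0
      exact rename_injective _ (Equiv.swap 0 j).injective h0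
    · rw [aeval_rename, ← Chart.cons_aff x j hx, hQ]
      refine hP _ ?_ (fun i h0 => hD i ((Chart.val_aff x j hx (ℓ i)).1 h0)) ?_
      · rw [Chart.dg_aff x j hx]; exact hd
      · rw [Chart.lam_aff x j hx, Chart.hgt_aff x j hx]; exact hN
  choose P hP0 hPd hP using h1
  choose d hd using hPd
  refine ⟨∏ j, P j, Finset.prod_ne_zero_iff.2 fun j _ => hP0 j, ⟨∑ j, d j, IsHomogeneous.prod _ _ _ fun j _ => hd j⟩,
    ?_⟩
  rintro x ⟨j, hj⟩ h2 h3 h4
  rw [map_prod]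
  exact Finset.prod_eq_zero (Finset.mem_univ j) (hP j x hj h2 h3 h4)

end Pool.Agent.QP2
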