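import Pool.Agent.Helper16.QP2.Sym
import Pool.Agent.Helper16.SL.Main

/-!
# QP2: from affine to projective points
-/

set_option autoImplicit false

namespace Pool.Agent.QP2

open Pool.Agent.SL Pool.Agent.SIX Matrix NumberField Pool.Agent.Helper64.Vojta MvPolynomial

universe u

theorem lin_swap {k : Type u} [Field k] [NumberField k] (j : Fin 3) (m : Fin 3 → k) (x : Fin 3 → AlgebraicClosure k) :
    lin (m ∘ Equiv.swap 0 j) (x ∘ Equiv.swap 0 j) = lin m x := by
  unfold lin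
  exact Equiv.sum_comp (Equiv.swap 0 j) fun i => algebraMap k (AlgebraicClosure k) (m i) * x i

theorem lin_smul {k : Type u} [Field k] [NumberField k] (c : k) (m : Fin 3 → k) (x : Fin 3 → AlgebraicClosure k) :
    lin (c • m) x = algebraMap k (AlgebraicClosure k) c * lin m x := by
  unfold lin
  rw [Finset.mul_sum]
  refine Finset.sum_congr rfl fun i _ => ?_
  rw [Pi.smul_apply, smul_eq_mul, map_mul, mul_assoc]

theorem lin_val {k : Type u} [Field k] [NumberField k] (m : Fin 3 → k) (x : Fin 3 → AlgebraicClosure k) :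
    lin m x = (Chart.val m x : AlgebraicClosure k) := by
  unfold lin Chart.val
  rw [← IntermediateField.algebraMap_apply, map_sum]
  exact Finset.sum_congr rfl fun i _ => by rw [map_mul]; rfl

theorem vx_ne {F : Type*} [Field F] (a b c d : Fin 3 → F) (h : br b c d ≠ 0) (h' : br a b c ≠ 0) : vx a b c d ≠ 0 := by
  intro h0
  have h1 : br (vx a b c d) b c = br b c d * br a b c := by
    simp only [vx, br]
    ring
  rw [h0] at h1
  apply mul_ne_zero h h'
  rw [← h1]
  simp [br]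

/-- the value of the quadratic form with matrix `M` -/
theorem qf_val {k : Type u} [Field k] [NumberField k] (j : Fin 3) (g : Fin 6 → k) (x : Fin 3 → AlgebraicClosure k) :
    ∑ a, ∑ b, algebraMap k (AlgebraicClosure k) (mt j g a b) * x a * x b =
      2 * qf (fun i => algebraMap k (AlgebraicClosure k) (g i)) (x ∘ Equiv.swap 0 j) := by
  have h := mt_val j (fun i => algebraMap k (AlgebraicClosure k) (g i)) x
  rw [← h]
  have h2 : mt j (fun i => algebraMap k (AlgebraicClosure k) (g i)) = (mt j g).map (algebraMap k (AlgebraicClosure k)) := by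
    ext a b
    unfold mt
    rw [Matrix.submatrix_apply, Matrix.map_apply, Matrix.submatrix_apply]
    generalize (Equiv.swap 0 j) a = a'
    generalize (Equiv.swap 0 j) b = b'
    fin_cases a' <;> fin_cases b' <;> simp [map_ofNat]
  rw [h2]
  simp only [dotProduct, Matrix.mulVec, Matrix.map_apply, Finset.mul_sum]
  exact Finset.sum_congr rfl fun a _ => Finset.sum_congr rfl fun b _ => by ring

theorem inj4 {a b c d : Fin 6} (h : [a, b, c, d].Nodup) : Function.Injective ![a, b, c, d] := by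
  rw [← List.nodup_ofFn]
  rw [List.ofFn_succ, List.ofFn_succ, List.ofFn_succ, List.ofFn_succ, List.ofFn_zero]
  exact h

theorem proj6
    (H : ∃ δ : ℝ, 0 < δ ∧ ∀ (k : Type u) [Field k] [NumberField k] (ℓ : Fin 6 → Fin 3 → k),
      SIX.GenPos ℓ → NoConic ℓ → ∀ S : Finset (Pl k), ∃ C : ℝ, ∀ y : Fin 2 → AlgebraicClosure k, VZ.dg y ≤ 2 →
        (∀ i, ∑ j, algebraMap k (VZ.fld y) (ℓ i j) * VZ.crd y j ≠ 0) →
        (∀ i j m n : Fin 6, [i, j, m, n].Nodup →
          lin (vx (ℓ i) (ℓ j) (ℓ m) (ℓ n)) (Fin.cons 1 y : Fin 3 → AlgebraicClosure k) ≠ 0) →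
        (∀ M : Fin 6 → k, Exc ℓ M →
          qf (fun i => algebraMap k (AlgebraicClosure k) (M i)) (Fin.cons 1 y : Fin 3 → AlgebraicClosure k) ≠ 0) →
        VZ.lam ℓ S y ≤ (6 - δ) * VZ.hgt y + C) :
    ∃ δ : ℝ, 0 < δ ∧ ∀ (k : Type u) [Field k] [NumberField k] (ℓ : Fin 6 → Fin 3 → k),
      (∀ i j m : Fin 6, i ≠ j → i ≠ m → j ≠ m → LinearIndependent k ![ℓ i, ℓ j, ℓ m]) → ¬ TouchConic ℓ →
      ∀ S : Finset (Pl k), ∃ C : ℝ, ∀ x : Fin 3 → AlgebraicClosure k, (∃ j, x j = 1) → Chart.dg x ≤ 2 →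
        (∀ i, Chart.val (ℓ i) x ≠ 0) →
        (∀ m : Fin 3 → k, m ≠ 0 → ∀ t : Fin 4 → Fin 6, Function.Injective t →
          m ∈ Submodule.span k {ℓ (t 0), ℓ (t 1)} → m ∈ Submodule.span k {ℓ (t 2), ℓ (t 3)} → Chart.val m x ≠ 0) →
        (∀ M : Matrix (Fin 3) (Fin 3) k, Mᵀ = M → M.det ≠ 0 → ∀ t : Fin 6 → Fin 6, Function.Injective t →
          Touches M (ℓ (t 0)) (ℓ (t 2)) → Touches M (ℓ (t 1)) (ℓ (t 3)) → Touches M (ℓ (t 4)) (ℓ (t 2)) →
          Touches M (ℓ (t 5)) (ℓ (t 3)) →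
          ∑ a, ∑ b, algebraMap k (AlgebraicClosure k) (M a b) * x a * x b ≠ 0) →
        ∑ ν ∈ S, ∑ i, Chart.lam (ℓ i) ν x ≤ (6 - δ) * Chart.hgt x + C := by
  obtain ⟨δ, hδ, H⟩ := H
  refine ⟨δ, hδ, fun k _ _ ℓ hℓ hT S => ?_⟩
  have hbr : ∀ i j m : Fin 6, i ≠ j → i ≠ m → j ≠ m → br (ℓ i) (ℓ j) (ℓ m) ≠ 0 := fun i j m h1 h2 h3 =>
    br_ne (hℓ i j m h1 h2 h3)
  have h1 : ∀ j : Fin 3, ∃ C : ℝ, ∀ x : Fin 3 → AlgebraicClosure k, x j = 1 → Chart.dg x ≤ 2 →
        (∀ i, Chart.val (ℓ i) x ≠ 0) →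
        (∀ m : Fin 3 → k, m ≠ 0 → ∀ t : Fin 4 → Fin 6, Function.Injective t →
          m ∈ Submodule.span k {ℓ (t 0), ℓ (t 1)} → m ∈ Submodule.span k {ℓ (t 2), ℓ (t 3)} → Chart.val m x ≠ 0) →
        (∀ M : Matrix (Fin 3) (Fin 3) k, Mᵀ = M → M.det ≠ 0 → ∀ t : Fin 6 → Fin 6, Function.Injective t →
          Touches M (ℓ (t 0)) (ℓ (t 2)) → Touches M (ℓ (t 1)) (ℓ (t 3)) → Touches M (ℓ (t 4)) (ℓ (t 2)) →
          Touches M (ℓ (t 5)) (ℓ (t 3)) →
          ∑ a, ∑ b, algebraMap k (AlgebraicClosure k) (M a b) * x a * x b ≠ 0) →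
        ∑ ν ∈ S, ∑ i, Chart.lam (ℓ i) ν x ≤ (6 - δ) * Chart.hgt x + C := by
    intro j
    obtain ⟨C, hC⟩ := H k (fun i => ℓ i ∘ Equiv.swap 0 j)
      (fun a b c h1 h2 h3 => by
        rw [br_swap]
        refine mul_ne_zero ?_ (hbr a b c h1 h2 h3)
        split
        · exact one_ne_zero
        · exact neg_ne_zero.2 one_ne_zero)
      (fun g hg => by
        by_contra h0
        apply hT
        refine ⟨mt j g, mt_symm j g, fun h => h0 (mt_zero j g h), fun i => ?_⟩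
        rw [mt_val, hg i, mul_zero]) S
    refine ⟨C, fun x hx hd hD hm hM => ?_⟩
    have h3 := hC (Chart.aff x j) (by rw [Chart.dg_aff x j hx]; exact hd)
      (fun i h0 => hD i ((Chart.val_aff x j hx (ℓ i)).1 h0)) ?_ ?_
    · rw [Chart.lam_aff x j hx, Chart.hgt_aff x j hx] at h3
      exact h3
    · intro a b c d hnd
      have hinj : Function.Injective ![a, b, c, d] := inj4 hnd
      rw [Chart.cons_aff x j hx, vx_swap, lin_smul, lin_swap]
      simp only [List.nodup_cons, List.mem_cons, List.not_mem_nil, or_false, not_or, not_false_eq_true,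
        List.nodup_nil, and_true] at hnd
      obtain ⟨⟨hab, hac, had⟩, ⟨hbc, hbd⟩, hcd⟩ := hnd
      refine mul_ne_zero ?_ ?_
      · split
        · rw [map_one]; exact one_ne_zero
        · rw [map_neg, map_one]; exact neg_ne_zero.2 one_ne_zero
      · rw [lin_val]
        intro h0
        refine hm (vx (ℓ a) (ℓ b) (ℓ c) (ℓ d)) (vx_ne _ _ _ _ (hbr b c d hbc hbd hcd) (hbr a b c hab hac hbc))
          ![a, b, c, d] hinj ?_ ?_ ?_
        · rw [Submodule.mem_span_pair]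
          refine ⟨br (ℓ b) (ℓ c) (ℓ d), - br (ℓ a) (ℓ c) (ℓ d), ?_⟩
          funext i
          simp only [vx, Pi.add_apply, Pi.smul_apply, smul_eq_mul, Matrix.cons_val_zero, Matrix.cons_val_one]
          ring
        · rw [Submodule.mem_span_pair]
          refine ⟨- br (ℓ a) (ℓ b) (ℓ d), br (ℓ a) (ℓ b) (ℓ c), ?_⟩
          rw [vx_eq]
          funext i
          simp only [Pi.add_apply, Pi.smul_apply, smul_eq_mul, Matrix.cons_val]
          ring
        · exact Subtype.ext h0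
    · intro g hg h0
      obtain ⟨hdt, t, ht1, ht2, ht3, ht4⟩ := hg
      refine hM (mt j g) (mt_symm j g) ?_ t t.injective (tan_iff j g _ _ ht1) (tan_iff j g _ _ ht2)
        (tan_iff j g _ _ ht3) (tan_iff j g _ _ ht4) ?_
      · rw [mt_det]
        exact mul_ne_zero two_ne_zero hdt
      · rw [qf_val, ← Chart.cons_aff x j hx, h0, mul_zero]
  choose C hC using h1
  have hne : (Finset.univ : Finset (Fin 3)).Nonempty := ⟨0, Finset.mem_univ 0⟩
  refine ⟨Finset.univ.sup' hne C, ?_⟩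
  rintro x ⟨j, hj⟩ hd hD hm hM
  exact (hC j x hj hd hD hm hM).trans (add_le_add le_rfl (Finset.le_sup' C (Finset.mem_univ j)))

end Pool.Agent.QP2
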