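import Pool.Agent.Helper97.SIX.Defs
import Pool.Agent.Helper16.FIN.Chart

/-!
# QP2: symmetric matrices and permutations of the coordinates
-/

set_option autoImplicit false

namespace Pool.Agent.QP2

open Pool.Agent.SL Pool.Agent.SIX Matrix

section

variable {F : Type*} [Field F]

/-- the conic `M = 0` touches the line `a` at its common point with the line `b` -/
def Touches (M : Matrix (Fin 3) (Fin 3) F) (a b : Fin 3 → F) : Prop :=
  ∃ c : F, M *ᵥ (crossProduct a b) = c • a

/-- the six lines touch the conic with the dual matrix `M` -/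
def TouchConic {q : ℕ} (l : Fin q → Fin 3 → F) : Prop :=
  ∃ M : Matrix (Fin 3) (Fin 3) F, Mᵀ = M ∧ M ≠ 0 ∧ ∀ i, l i ⬝ᵥ M *ᵥ l i = 0

/-- the matrix of the form `g` in the coordinates permuted by `Equiv.swap 0 j` -/
def mt (j : Fin 3) (g : Fin 6 → F) : Matrix (Fin 3) (Fin 3) F :=
  (!![2 * g 0, g 5, g 4; g 5, 2 * g 1, g 3; g 4, g 3, 2 * g 2] : Matrix (Fin 3) (Fin 3) F).submatrix
    (Equiv.swap 0 j) (Equiv.swap 0 j)

theorem mt_symm (j : Fin 3) (g : Fin 6 → F) : (mt j g)ᵀ = mt j g := by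
  unfold mt
  rw [Matrix.transpose_submatrix]
  congr 1
  ext a b
  fin_cases a <;> fin_cases b <;> rfl

theorem mt_det (j : Fin 3) (g : Fin 6 → F) : (mt j g).det = 2 * dt g := by
  unfold mt
  rw [Matrix.det_submatrix_equiv_self, Matrix.det_fin_three]
  simp only [Matrix.of_apply, Matrix.cons_val', Matrix.cons_val_zero, Matrix.cons_val_one, Matrix.cons_val,
    Matrix.cons_val_fin_one, dt]
  ring

theorem mt_val (j : Fin 3) (g : Fin 6 → F) (a : Fin 3 → F) :
    a ⬝ᵥ mt j g *ᵥ a = 2 * qf g (a ∘ Equiv.swap 0 j) := by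
  fin_cases j <;>
  simp [mt, Matrix.mulVec, dotProduct, Fin.sum_univ_three, qf, Equiv.swap_apply_def] <;> ring

theorem mt_zero (j : Fin 3) (g : Fin 6 → F) [CharZero F] (h : mt j g = 0) : g = 0 := by
  have h1 : (!![2 * g 0, g 5, g 4; g 5, 2 * g 1, g 3; g 4, g 3, 2 * g 2] : Matrix (Fin 3) (Fin 3) F) = 0 := by
    ext a b
    have h2 := congrFun (congrFun h (Equiv.swap 0 j a)) (Equiv.swap 0 j b)
    simpa [mt] using h2
  have e : ∀ a b, (!![2 * g 0, g 5, g 4; g 5, 2 * g 1, g 3; g 4, g 3, 2 * g 2] : Matrix (Fin 3) (Fin 3) F) a b = 0 :=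
    fun a b => by rw [h1]; rfl
  have e0 : 2 * g 0 = 0 := by simpa using e 0 0
  have e1 : 2 * g 1 = 0 := by simpa using e 1 1
  have e2 : 2 * g 2 = 0 := by simpa using e 2 2
  have e3 : g 3 = 0 := by simpa using e 1 2
  have e4 : g 4 = 0 := by simpa using e 0 2
  have e5 : g 5 = 0 := by simpa using e 0 1
  have h2 : (2:F) ≠ 0 := two_ne_zero
  funext i
  fin_cases i
  · exact (mul_eq_zero.1 e0).resolve_left h2
  · exact (mul_eq_zero.1 e1).resolve_left h2
  · exact (mul_eq_zero.1 e2).resolve_left h2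
  · exact e3
  · exact e4
  · exact e5

theorem tan_iff (j : Fin 3) (g : Fin 6 → F) (a b : Fin 3 → F)
    (h : Tan g (a ∘ Equiv.swap 0 j) (b ∘ Equiv.swap 0 j)) : Touches (mt j g) a b := by
  obtain ⟨c, hc⟩ := h
  have h0 := hc ![1, 0, 0]
  have h1 := hc ![0, 1, 0]
  have h2 := hc ![0, 0, 1]
  fin_cases j
  · refine ⟨c, ?_⟩
    simp [cr, bf, Equiv.swap_apply_def, dot] at h0 h1 h2
    ext i
    fin_cases i
    all_goals simp [mt, Matrix.mulVec, dotProduct, Fin.sum_univ_three, Equiv.swap_apply_def, cross_apply]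
    · linear_combination h0
    · linear_combination h1
    · linear_combination h2
  · refine ⟨-c, ?_⟩
    simp [cr, bf, Equiv.swap_apply_def, dot] at h0 h1 h2
    ext i
    fin_cases i
    all_goals simp [mt, Matrix.mulVec, dotProduct, Fin.sum_univ_three, Equiv.swap_apply_def, cross_apply]
    · linear_combination -h1
    · linear_combination -h0
    · linear_combination -h2
  · refine ⟨-c, ?_⟩
    simp [cr, bf, Equiv.swap_apply_def, dot] at h0 h1 h2
    ext i
    fin_cases i
    all_goals simp [mt, Matrix.mulVec, dotProduct, Fin.sum_univ_three, Equiv.swap_apply_def, cross_apply]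
    · linear_combination -h2
    · linear_combination -h1
    · linear_combination -h0

theorem br_swap (j : Fin 3) (a b c : Fin 3 → F) :
    br (a ∘ Equiv.swap 0 j) (b ∘ Equiv.swap 0 j) (c ∘ Equiv.swap 0 j) = (if j = 0 then 1 else -1) * br a b c := by
  fin_cases j <;> simp [br, Equiv.swap_apply_def] <;> ring

theorem vx_swap (j : Fin 3) (a b c d : Fin 3 → F) :
    vx (a ∘ Equiv.swap 0 j) (b ∘ Equiv.swap 0 j) (c ∘ Equiv.swap 0 j) (d ∘ Equiv.swap 0 j) =
      (if j = 0 then (1:F) else -1) • (vx a b c d ∘ Equiv.swap 0 j) := by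
  funext i
  unfold vx
  rw [br_swap, br_swap]
  simp only [Function.comp_apply, Pi.smul_apply, smul_eq_mul]
  ring

theorem br_det (a b c : Fin 3 → F) : br a b c = (Matrix.of ![a, b, c]).det := by
  rw [Matrix.det_fin_three]
  simp [br]
  ring

theorem br_ne {a b c : Fin 3 → F} (h : LinearIndependent F ![a, b, c]) : br a b c ≠ 0 := by
  rw [br_det]
  have h5 : LinearIndependent F (Matrix.of ![a, b, c]).row := h
  exact (Matrix.linearIndependent_rows_iff_isUnit.1 h5).map Matrix.detMonoidHom |>.ne_zero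

end

end Pool.Agent.QP2
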